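import Pool.Agent.Helper54_Exc.Stmts

/-!
# END: the speed bound (helper65, squad EXC, MP_8cded5_pr)
-/

namespace Pool.Agent.Helper54Exc.H65

open Filter Topology Pool.Agent.Helper28Excl Pool.Agent.Helper54Exc

theorem card_Sc (c : Bool) (n : ℕ) : (Sc c n).card = n + 1 := by
  cases c
  · simp only [Sc, Bool.false_eq_true, if_false, Int.card_Icc]; omega
  · simp only [Sc, if_true, Int.card_Icc]; omega

theorem abs_ge_of_mem_Sc {c : Bool} {n : ℕ} {x : ℤ} (h : x ∈ Sc c n) : (n : ℤ) ≤ |x| := by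
  cases c
  · simp only [Sc, Bool.false_eq_true, if_false, Finset.mem_Icc] at h
    exact h.1.trans (le_abs_self x)
  · simp only [Sc, if_true, Finset.mem_Icc] at h
    have : -x ≤ |x| := neg_le_abs x
    omega

theorem abs_le_of_mem_Sc {c : Bool} {n : ℕ} {x : ℤ} (h : x ∈ Sc c n) : |x| ≤ 2 * (n : ℤ) := by
  cases c
  · simp only [Sc, Bool.false_eq_true, if_false, Finset.mem_Icc] at h
    rw [abs_le]; omega
  · simp only [Sc, if_true, Finset.mem_Icc] at h
    rw [abs_le]; omega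

theorem nu_Bd {k : Kern} {ν : C(Config × Config, ℝ) →ₗ[ℝ] ℝ} (h : OneDisc k ν) (R N : ℕ) :
    ν (Bd R N) = ν (kap R) := by
  unfold Bd
  rw [map_add, map_add, map_smul, map_smul, map_sum, h.exc N,
    Finset.sum_eq_zero fun x _ => h.sm x]
  simp

theorem fin_int {k : Kern} {ν : C(Config × Config, ℝ) →ₗ[ℝ] ℝ} (hP : PntStmt) (h : OneDisc k ν)
    (R N : ℕ) (t ℓ : ℝ) (hRN : R < N) (ht : 0 ≤ t) (hℓ : 0 < ℓ) (c : Bool) (τ : ℤ) (hτ : τ ∈ box N)
    (h1 : (R : ℤ) < |τ|) (h2 : (R : ℝ) + ℓ ≤ |(τ : ℝ)|) :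
    ν (sgn c • (pull (ot c) (hR k R N t) - pull (bs c) (hR k R N t))) ≤ ν (Q k c N t τ)
      + 2 * mom k * t / ℓ + ν (1 - vac c τ) + ν (kap R) := by
  have hpos : IsPos ν := h.inv.1
  have hone : ν 1 = 1 := h.inv.2.1
  have h3 := hpos.mono (f := sgn c • (pull (ot c) (hR k R N t) - pull (bs c) (hR k R N t)))
    (g := Q k c N t τ + (2 * mom k * t / ℓ) • (1 : C(Config × Config, ℝ)) + (1 - vac c τ) + Bd R N)
    (fun z => by
      have := hP.fin k R N t ℓ hRN ht hℓ c τ hτ h1 h2 z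
      simpa using this)
  have h4 : ν ((2 * mom k * t / ℓ) • (1 : C(Config × Config, ℝ))) = 2 * mom k * t / ℓ := by
    rw [map_smul, hone, smul_eq_mul, mul_one]
  rw [map_add, map_add, map_add, h4, nu_Bd h] at h3
  exact h3

/-- END -/
theorem end_stmt (hM : MarStmt) (hP : PntStmt) : EndStmt := by
  intro k ν h
  obtain ⟨R, hR⟩ := h.kap (1 / 16) (by norm_num)
  obtain ⟨A, hA⟩ := h.tail (1 / 16) (by norm_num)
  have hm := mom_nonneg k
  refine ⟨64 * (mom k + 1) + 2 * R + 2 + A, ?_, ?_⟩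
  · have : (0:ℝ) ≤ R := Nat.cast_nonneg R
    have : (0:ℝ) ≤ A := Nat.cast_nonneg A
    nlinarith
  intro c n t hn ht hKt hret
  have hR0 : (0:ℝ) ≤ R := Nat.cast_nonneg R
  have hA0 : (0:ℝ) ≤ A := Nat.cast_nonneg A
  have hn0 : (0:ℝ) < n := by nlinarith
  have hnA : A ≤ n := by
    have : (A:ℝ) ≤ n := by nlinarith
    exact_mod_cast this
  have hnR : 2 * R + 2 ≤ n := by
    have : ((2 * R + 2 : ℕ) : ℝ) ≤ n := by push_cast; nlinarith
    exact_mod_cast this
  have hw := hM.window k ν h R t (1 / 16) ht (by norm_num)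
  obtain ⟨N, hN1, hN2, hN3⟩ := (hret.and (hw.and (eventually_ge_atTop (2 * n + 1)))).exists
  have hw' := hN2 c
  have hbd : 2 * mom k * t / ((n : ℝ) / 2) ≤ 1 / 16 := by
    rw [div_le_iff₀ (by positivity)]
    have h4 : 64 * mom k * t ≤ n := by
      have : 64 * mom k * t ≤ (64 * (mom k + 1) + 2 * R + 2 + A) * t := by
        apply mul_le_mul_of_nonneg_right _ ht.le
        linarith
      linarith
    linarith
  have key : ∀ τ ∈ Sc c n, (11 : ℝ) / 16 ≤ ν (Q k c N t τ) := by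
    intro τ hτ
    have h5 := abs_ge_of_mem_Sc hτ
    have h6 := abs_le_of_mem_Sc hτ
    have h7 : (n : ℝ) ≤ |(τ : ℝ)| := by exact_mod_cast h5
    have h8 : (2 * R + 2 : ℝ) ≤ n := by exact_mod_cast hnR
    have h9 := fin_int hP h R N t (n / 2) (by omega) ht.le (by positivity) c τ
      (by rw [mem_box]; omega) (by omega) (by linarith)
    have h10 := hA c n hnA τ hτ
    linarith
  have h11 : (n + 1 : ℝ) * (11 / 16) ≤ ∑ τ ∈ Sc c n, ν (Q k c N t τ) := by
    have := Finset.card_nsmul_le_sum (Sc c n) (fun τ => ν (Q k c N t τ)) (11 / 16) key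
    rw [card_Sc] at this
    simpa using this
  nlinarith

end Pool.Agent.Helper54Exc.H65
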